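import Pool.Agent.P.MP_28243e_an.Main

/-! The exact range of Lorentz exponents for which every weak solution of the n-Laplace system
with an antisymmetric potential is continuous. -/

namespace Pool.Agent.Results.MP_28243e_an.ExactRange

open Pool.Agent.P.MP_28243e_an

theorem result (n : ℕ) (hn : 3 ≤ n) :
    {p ∈ Set.Icc (1 : ℝ) n | Spec.Good n p} = Set.Icc 1 2 :=
  range_of regular n hn

end Pool.Agent.Results.MP_28243e_an.ExactRange
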